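import Pool.Agent.H802.RS.F4
import Pool.Agent.H802.RS.GI
import Pool.Agent.H802.RS.T
import Pool.Agent.H802.RS.C

/-! MP_3688cb_co, Q1: there are infinitely many pairwise non-isomorphic rotation snarks. -/

namespace Pool.Agent.Results.MP_3688cb_co.InfinitelyManyRotationSnarks

open Pool.Agent.H802.RS

theorem result : ∃ (V : ℕ → Type) (G : ∀ n, SimpleGraph (V n)) (i : ℕ → ℕ),
    (∀ n, Finite (V n)) ∧ (∀ n, IsRotationSnark (G n) (i n)) ∧
      ∀ m n, m ≠ n → IsEmpty (G m ≃g G n) :=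
  main stmI stmG (stmC stmI stmG) stmT stmN

end Pool.Agent.Results.MP_3688cb_co.InfinitelyManyRotationSnarks
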